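import Pool.Agent.Work.MP_3d425c_gt.Jw.Root

/-! A calculus of ends for sets invariant under one element. -/

namespace Pool.Agent.Work.MP_3d425c_gt.Jw
open Set Filter Pool.Agent.Work.MP_3d425c_gt.Md Pool.Agent.Work.MP_3d425c_gt.Cy
  Pool.Agent.Work.MP_3d425c_gt.Bg Pool.Agent.Work.MP_3d425c_gt.Bq
open scoped Pointwise

variable {G X X0 X1 X2 X3 : Type} [Group G] [MulAction G X] [MulAction G X0] [MulAction G X1]
  [MulAction G X2] [MulAction G X3] {T : Tri G X0 X1 X2 X3} {h t g : G}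

/-- the direction `t` ends in `C` -/
def In (t : G) (C : Set X) : Prop := ∀ x, ∀ᶠ n : ℕ in atTop, t ^ n • x ∈ C

/-- two sets agree in the direction `t` -/
def Ag (t : G) (C C' : Set X) : Prop := In t {x | x ∈ C ↔ x ∈ C'}

/-- an invariant set whose boundary runs out only in the directions of `L` -/
def En (T : Tri G X0 X1 X2 X3) (h : G) (C : Set X0) (L : Set G) : Prop :=
  (∀ x, h • x ∈ C ↔ x ∈ C) ∧ ∃ K : Set X1, K.Finite ∧ ∀ e ∈ cut T C, ∃ k ∈ K, ∃ m : ℤ,
    e = h ^ m • k ∨ ∃ t ∈ L, ∃ n : ℕ, e = (h ^ m * t ^ n) • k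

theorem tr_eq (g : G) (D : Set X) : tr g D = g • D :=
  Set.ext fun _ => mem_smul_set_iff_inv_smul_mem.symm

section
variable {C C' C'' : Set X}

theorem In.mono (k : In t C) (s : C ⊆ C') : In t C' := fun x => (k x).mono fun _ q => s q

theorem In.inter (k : In t C) (k' : In t C') : In t (C ∩ C') := fun x => (k x).and (k' x)

theorem In.ne (k : In t C) (x : X) : C.Nonempty := let ⟨_, q⟩ := (k x).exists; ⟨_, q⟩

theorem In.not (k : In t C) (k' : In t Cᶜ) (x : X) : False :=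
  let ⟨_, q⟩ := (k.inter k').ne x; q.2 q.1

theorem In.smul (k : In t C) (g : G) : In (g * t * g⁻¹) (g • C) := fun x =>
  (k (g⁻¹ • x)).mono fun n q => by
    rw [conj_pow, mul_smul, mul_smul]
    exact smul_mem_smul_set q

theorem In.pow (k : In t C) {j : ℕ} (hj : 0 < j) : In (t ^ j) C := fun x => by
  obtain ⟨N, hN⟩ := eventually_atTop.1 (k x)
  refine (eventually_ge_atTop N).mono fun n q => ?_
  rw [← pow_mul]
  exact hN _ (q.trans (Nat.le_mul_of_pos_left n hj))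

theorem Ag.refl (t : G) (C : Set X) : Ag t C C := fun _ => Eventually.of_forall fun _ => Iff.rfl

theorem Ag.symm (k : Ag t C C') : Ag t C' C := In.mono k fun _ q => Iff.symm q

theorem Ag.trans (k : Ag t C C') (k' : Ag t C' C'') : Ag t C C'' :=
  (In.inter k k').mono fun _ q => Iff.trans q.1 q.2

theorem Ag.compl (k : Ag t C C') : Ag t Cᶜ C'ᶜ := In.mono k fun _ q => not_congr q

theorem Ag.smul (k : Ag t C C') (g : G) : Ag (g * t * g⁻¹) (g • C) (g • C') :=
  (In.smul k g).mono fun x q => by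
    rw [mem_smul_set_iff_inv_smul_mem] at q
    exact mem_smul_set_iff_inv_smul_mem.trans (Iff.trans q mem_smul_set_iff_inv_smul_mem.symm)

theorem Ag.lk (k : Ag t C C') (i : ∀ x, t • x ∈ C' ↔ x ∈ C') : Lk t C C' := fun x =>
  (k x).mono fun n q => Iff.trans q (by rw [← zpow_natCast, inv_zp i])

theorem Lk.ag (k : Lk t C C') (i : ∀ x, t • x ∈ C' ↔ x ∈ C') : Ag t C C' := fun x =>
  (k x).mono fun n q => Iff.trans q (by rw [← zpow_natCast, inv_zp i])

/-- a small set is left in every direction -/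
theorem in_of_sm (hX : ∀ (g : G) (x : X), g • x = x → g = 1) (c : Commute h t) (i : Ind h t)
    (k : Sm h C) : In t Cᶜ := av_sm hX c i k

/-- an invariant set that contains the direction is everything -/
theorem In.all (k : In t C) (i : ∀ x, t • x ∈ C ↔ x ∈ C) (x : X) : x ∈ C := by
  obtain ⟨n, q⟩ := (k x).exists
  rwa [← zpow_natCast, inv_zp i] at q

end

variable {A B C C' D J : Set X0} {L L' : Set G}

theorem En.inv (k : En T h C L) (x : X0) : h • x ∈ C ↔ x ∈ C := k.1 x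

theorem En.of (i : ∀ x, h • x ∈ C ↔ x ∈ C) (k : En T h A L) (k' : En T h B L')
    (s : cut T C ⊆ cut T A ∪ cut T B) : En T h C (L ∪ L') := by
  obtain ⟨-, K, hK, r⟩ := k
  obtain ⟨-, K', hK', r'⟩ := k'
  refine ⟨i, K ∪ K', hK.union hK', fun e he => ?_⟩
  rcases s he with q | q
  · obtain ⟨y, hy, m, q⟩ := r e q
    exact ⟨y, .inl hy, m, q.imp_right fun ⟨t, a, b⟩ => ⟨t, .inl a, b⟩⟩
  · obtain ⟨y, hy, m, q⟩ := r' e q
    exact ⟨y, .inr hy, m, q.imp_right fun ⟨t, a, b⟩ => ⟨t, .inr a, b⟩⟩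

theorem En.mono (k : En T h C L) (s : L ⊆ L') : En T h C L' :=
  ⟨k.1, k.2.imp fun _ r => ⟨r.1, fun e he => (r.2 e he).imp fun _ q => ⟨q.1, q.2.imp fun _ q =>
    q.imp_right fun ⟨t, a, b⟩ => ⟨t, s a, b⟩⟩⟩⟩

theorem En.compl (k : En T h C L) : En T h Cᶜ L :=
  ⟨fun x => not_congr (k.1 x), k.2.imp fun _ r =>
    ⟨r.1, fun e he => r.2 e fun q => he (not_congr q)⟩⟩

theorem En.inter (k : En T h A L) (k' : En T h B L') : En T h (A ∩ B) (L ∪ L') :=
  En.of (fun x => and_congr (k.1 x) (k'.1 x)) k k' fun _ he => by_contra fun n =>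
    he (and_congr (not_not.1 fun q => n (.inl q)) (not_not.1 fun q => n (.inr q)))

theorem En.union (k : En T h A L) (k' : En T h B L') : En T h (A ∪ B) (L ∪ L') :=
  En.of (fun x => or_congr (k.1 x) (k'.1 x)) k k' fun _ he => by_contra fun n =>
    he (or_congr (not_not.1 fun q => n (.inl q)) (not_not.1 fun q => n (.inr q)))

theorem En.diff (k : En T h A L) (k' : En T h B L') : En T h (A \ B) (L ∪ L') := k.inter k'.compl

theorem En.smul (k : En T h C L) (c : Commute h g) :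
    En T h (g • C) ((fun t => g * t * g⁻¹) '' L) := by
  obtain ⟨i, K, hK, r⟩ := k
  refine ⟨fun x => ?_, (g • ·) '' K, hK.image _, fun e he => ?_⟩
  · rw [mem_smul_set_iff_inv_smul_mem, mem_smul_set_iff_inv_smul_mem, ← mul_smul,
      ← c.inv_right.eq, mul_smul, i]
  · rw [← tr_eq, cut_tr] at he
    obtain ⟨y, hy, m, q⟩ := r _ he
    refine ⟨_, ⟨y, hy, rfl⟩, m, q.imp (fun q => ?_) fun ⟨t, a, n, q⟩ => ⟨_, ⟨t, a, rfl⟩, n, ?_⟩⟩
    · show e = _ • g • y
      rw [inv_smul_eq_iff.1 q, ← mul_smul, ← mul_smul, (c.zpow_left m).eq]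
    · show e = (_ * (g * t * g⁻¹) ^ n) • g • y
      rw [inv_smul_eq_iff.1 q, ← mul_smul, ← mul_smul, conj_pow, ← mul_assoc,
        ← (c.zpow_left m).eq]
      congr 1
      group

theorem En.of_sm (i : ∀ x, h • x ∈ C ↔ x ∈ C) (k : Sm h (cut T C)) : En T h C L :=
  ⟨i, k.imp fun _ r => ⟨r.1, fun e he => (r.2 e he).imp fun _ q => ⟨q.1, q.2.imp fun _ => .inl⟩⟩⟩

theorem En.of_hf (i : ∀ x, h • x ∈ C ↔ x ∈ C) {S S' : Set X1} {t' : G} (k : Hf h t S)
    (k' : Hf h t' S') (s : cut T C ⊆ S ∪ S') : En T h C {t, t'} := by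
  obtain ⟨K, hK, r⟩ := k
  obtain ⟨K', hK', r'⟩ := k'
  refine ⟨i, K ∪ K', hK.union hK', fun e he => ?_⟩
  rcases s he with q | q
  · obtain ⟨y, hy, m, n, q⟩ := r e q
    exact ⟨y, .inl hy, m, .inr ⟨t, .inl rfl, n, q⟩⟩
  · obtain ⟨y, hy, m, n, q⟩ := r' e q
    exact ⟨y, .inr hy, m, .inr ⟨t', .inr rfl, n, q⟩⟩

theorem En.hf (k : En T h C {t}) : Hf h t (cut T C) :=
  k.2.imp fun _ r => ⟨r.1, fun e he => (r.2 e he).imp fun _ q => ⟨q.1, q.2.imp fun _ q =>
    q.elim (fun q => ⟨0, by rw [pow_zero, mul_one, q]⟩) fun ⟨_, a, b⟩ => a ▸ b⟩⟩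

/-- a wall has two ends -/
theorem IsWall.en (w : IsWall T h t A) : En T h A {t, t⁻¹} := by
  obtain ⟨K, hK, r⟩ := w.fin
  refine ⟨w.ia, K, hK, fun e he => ?_⟩
  obtain ⟨y, hy, m, n, q⟩ := r e he
  refine ⟨y, hy, m, .inr ?_⟩
  rcases Int.eq_nat_or_neg n with ⟨j, rfl | rfl⟩
  · exact ⟨t, .inl rfl, j, by rw [q, zpow_natCast]⟩
  · exact ⟨t⁻¹, .inr rfl, j, by rw [q, zpow_neg, zpow_natCast, inv_pow]⟩

theorem IsWall.inv (w : IsWall T h t A) : IsWall T h t⁻¹ A := by
  have f : ∀ {Y : Type} [MulAction G Y] (t : G) (S : Set Y), Sm2 h t S → Sm2 h t⁻¹ S :=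
    fun t S k => k.imp fun K r => ⟨r.1, fun x hx => (r.2 x hx).imp fun y q => ⟨q.1, by
      obtain ⟨m, n, e⟩ := q.2
      exact ⟨m, -n, by rw [e, inv_zpow', neg_neg]⟩⟩⟩
  refine ⟨w.ia, fun x => by rw [← w.ib, smul_inv_smul], f _ _ w.fin, fun k => w.big ?_,
    fun k => w.big' ?_⟩
  · simpa only [inv_inv] using f _ _ k
  · simpa only [inv_inv] using f _ _ k

theorem Ind.inv (i : Ind h t) : Ind h t⁻¹ := fun m n e => by
  have := i m (-n) (by rwa [← inv_zpow'])
  omega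

theorem e0 (hM : Mfd T) (hh : ∀ n : ℤ, h ^ n = 1 → n = 0) (k : En T h C ∅) :
    Sm h C ∨ Sm h Cᶜ :=
  one_end hM hh k.1 (k.2.imp fun _ r => ⟨r.1, fun e he => (r.2 e he).imp fun _ q =>
    ⟨q.1, q.2.imp fun _ q => q.resolve_right fun ⟨_, a, _⟩ => a⟩⟩)

theorem e1 (k : En T h C (insert t L)) (c : In t C ∨ In t Cᶜ) : En T h C L := by
  obtain ⟨i, K, hK, r⟩ := k
  have : Sm h (cut T C ∩ {e | ∃ k ∈ K, ∃ (m : ℤ) (n : ℕ), e = (h ^ m * t ^ n) • k}) := by
    rcases c with c | c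
    · exact drop (C := univ) i ⟨K, hK, fun _ q => q⟩
        (fun x => (c x).mono fun n q => iff_of_true q trivial) fun _ _ => Iff.rfl
    · exact drop (C := ∅) i ⟨K, hK, fun _ q => q⟩
        (fun x => (c x).mono fun n q => iff_of_false q id) fun _ _ => Iff.rfl
  obtain ⟨K', hK', r'⟩ := this
  refine ⟨i, K ∪ K', hK.union hK', fun e he => ?_⟩
  obtain ⟨y, hy, m, q | ⟨s, rfl | a, n, q⟩⟩ := r e he
  · exact ⟨y, .inl hy, m, .inl q⟩
  · obtain ⟨y', hy', m', q'⟩ := r' e ⟨he, y, hy, m, n, q⟩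
    exact ⟨y', .inr hy', m', .inl q'⟩
  · exact ⟨y, .inl hy, m, .inr ⟨s, a, n, q⟩⟩

/-- all ends at which the set is constant can be dropped -/
theorem e1' (hL : L.Finite) (k : En T h C (L ∪ L')) (c : ∀ t ∈ L, In t C ∨ In t Cᶜ) :
    En T h C L' := by
  induction L, hL using Set.Finite.induction_on with
  | empty => rwa [empty_union] at k
  | insert _ _ ih =>
    rw [insert_union] at k
    exact ih (e1 k (c _ (.inl rfl))) fun t a => c t (.inr a)

theorem e3 (hM : Mfd T) (c : Commute h t) (i : Ind h t) (hL : L.Finite) (k : En T h C L)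
    (d : ∀ s ∈ L, Commute h s ∧ Dif h t s) : In t C ∨ In t Cᶜ := by
  obtain ⟨-, K, hK, r⟩ := k
  refine (lk_const hM (b := t) (D := C) fun e => ?_).imp
    (fun l x => (l x).mono fun n q => q.2 trivial) fun l x => (l x).mono fun n q => q.1
  have k1 := av_sm T.free1 c i (S := {e | ∃ k ∈ K, ∃ m : ℤ, e = h ^ m • k})
    ⟨K, hK, fun _ q => q⟩ e
  have k2 := (eventually_all_finite hL).2 fun s a => av T.free1 (d s a).1 (d s a).2
    (S := {e | ∃ k ∈ K, ∃ (m : ℤ) (n : ℕ), e = (h ^ m * s ^ n) • k}) ⟨K, hK, fun _ q => q⟩ e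
  refine (k1.and k2).mono fun n q he => ?_
  obtain ⟨y, hy, m, p | ⟨s, a, j, p⟩⟩ := r _ he
  · exact q.1 ⟨y, hy, m, p⟩
  · exact q.2 s a ⟨y, hy, m, j, p⟩

theorem e4 (hM : Mfd T) (c : Commute h t) (i : Ind h t) (w : IsWall T h t A)
    (k : En T h C {t}) (a : Ag t C A) : False := s1 hM c i w k.1 k.hf (a.lk w.ib)

/-- a set without ends that is empty in one direction is small -/
theorem e0' (hM : Mfd T) (c : Commute h t) (i : Ind h t) (hL : L.Finite) (k : En T h C L)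
    (l : ∀ s ∈ L, In s C ∨ In s Cᶜ) (a : In t Cᶜ) : Sm h C := by
  refine (e0 hM i.one (e1' hL (by rwa [union_empty]) l)).resolve_right fun q => ?_
  obtain ⟨x₃⟩ := T.ne
  exact a.not (in_of_sm T.free c i q) (v3 T x₃ 0)

/-- a set with one true end does not agree with a wall there -/
theorem e4' (hM : Mfd T) (c : Commute h t) (i : Ind h t) (w : IsWall T h t A) (hL : L.Finite)
    (k : En T h C (L ∪ {t})) (l : ∀ s ∈ L, In s C ∨ In s Cᶜ) (a : Ag t C A) : False :=
  e4 hM c i w (e1' hL k l) a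

theorem join (hM : Mfd T) {a b c : G} (h : Commute a b) (i : Ind a b) (h' : Commute a c)
    (i' : Ind a c) (d : Dif a b c) (hA : IsWall T a b A) (Bc : ∀ x, c • x ∈ B ↔ x ∈ B)
    {u v y : X1 → ℝ} (ua : ∀ e, u (a • e) = u e) (us : Hf a b (Function.support u))
    (ul : ∀ e, ∀ᶠ n : ℕ in atTop, u (b ^ n • e) = wz T A e) (va : ∀ e, v (a • e) = v e)
    (vs : Hf a c (Function.support v)) (vl : ∀ e, ∀ᶠ n : ℕ in atTop, v (c ^ n • e) = wz T B e)
    (hy : Fa a y) {s t : ℝ} (s0 : 0 < s)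
    (ey : ∀ f, s * d1_c1 T u f + t * d1_c1 T v f = d1_c1 T y f) :
    ∃ D, En T a D {b, c} ∧ Ag b D A ∧ (0 < t ∧ Ag c D B ∨ t < 0 ∧ Ag c D Bᶜ) := by
  obtain ⟨f, ef⟩ := T.h1 (fun e => s * u e + t * v e - y e) fun f => by
    have := ey f
    unfold d1_c1 at this
    linarith
  have lim : ∀ {b c : G} {A : Set X0} {u v : X1 → ℝ} {s t : ℝ}, Commute a b → Ind a b →
      Commute a c → Dif a b c → (∀ x, b • x ∈ A ↔ x ∈ A) → Hf a c (Function.support v) →
      (∀ e, ∀ᶠ n : ℕ in atTop, u (b ^ n • e) = wz T A e) →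
      (∀ e, s * u e + t * v e - y e = f (T.d1 e 0) - f (T.d1 e 1)) →
      ∃ κ : ℝ, ∀ x, ∀ᶠ n : ℕ in atTop, f (b ^ n • x) = s * wi A x + κ :=
    fun h i h' d hA vs ul ef => lim_of hM (fun x => by rw [wi_congr (hA x)]) fun e =>
      (((ul e).and (av T.free1 h' d vs e)).and (av_sm T.free1 h i hy.sm e)).mono fun n q => by
        rw [← T.e1, ← T.e1, ← ef, q.1.1, not_not.1 q.1.2, not_not.1 q.2]
        unfold wz
        ring
  obtain ⟨κ, l⟩ := lim h i h' d hA.ib vs ul ef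
  obtain ⟨κ', l'⟩ := lim (s := t) (t := s) h' i' h d.symm Bc us vl fun e => by
    rw [add_comm, ef]
  have fa : ∀ x, f (a • x) = f x := fun x => by
    obtain ⟨n, q, q'⟩ := ((l x).and (l (a • x))).exists
    have := const_of hM (t := fun x => f (a • x) - f x) (fun e => by
      have k1 := ef e
      have k2 := ef (a • e)
      simp only [T.e1, ua, va, hy.inv] at k2
      linarith) x (b ^ n • x)
    rw [wi_congr (hA.ia x), ← mul_smul, ← (h.pow_right n).eq, mul_smul] at q'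
    simp only [q, q'] at this
    linarith
  have kD : En T a {x | κ < f x} {b, c} := En.of_hf (fun x => by simp only [mem_ofPred_eq, fa])
    us (vs.union (Hf.of_sm hy.sm)) fun e he => by_contra fun n => he (by
      have := ef e
      have n1 : u e = 0 := not_not.1 fun q => n (.inl q)
      have n2 : v e = 0 := not_not.1 fun q => n (.inr (.inl q))
      have n3 : y e = 0 := not_not.1 fun q => n (.inr (.inr q))
      simp only [n1, n2, n3] at this
      simp only [mem_ofPred_eq, show f (T.d1 e 0) = f (T.d1 e 1) by linarith])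
  have lA : Ag b {x | κ < f x} A := Lk.ag (fun x => (l x).mono fun n q => by
    rw [mem_ofPred_eq, q]
    by_cases m : x ∈ A
    · exact iff_of_true (by rw [wi_pos m]; linarith) m
    · exact iff_of_false (by rw [wi_neg m]; linarith) m) hA.ib
  have lB : ∀ C : Set X0, (∀ x, κ < t * wi B x + κ' ↔ x ∈ C) → Lk c {x | κ < f x} C :=
    fun C k x => (l' x).mono fun n q => by rw [mem_ofPred_eq, q, k]
  have nc : In c {x | κ < f x} ∨ In c {x | κ < f x}ᶜ → False := fun q =>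
    e4 hM h i hA (e1 (t := c) (by rwa [pair_comm]) q) lA
  have cs : ∀ (x) (p : ℝ → Prop), p (t + κ') → p κ' → p (t * wi B x + κ') := fun x p p1 p2 => by
    by_cases m : x ∈ B
    · rwa [wi_pos m, mul_one]
    · rwa [wi_neg m, mul_zero, zero_add]
  refine ⟨_, kD, lA, ?_⟩
  by_cases e1 : κ < t + κ' <;> by_cases e2 : κ < κ'
  · exact (nc (.inl fun x => (lB univ (fun x => iff_of_true (cs x _ e1 e2) trivial) x).mono
      fun n q => q.2 trivial)).elim
  · refine .inl ⟨by linarith, (lB B fun x => ?_).ag Bc⟩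
    by_cases m : x ∈ B
    · exact iff_of_true (by rwa [wi_pos m, mul_one]) m
    · exact iff_of_false (by rwa [wi_neg m, mul_zero, zero_add]) m
  · refine .inr ⟨by linarith, (lB Bᶜ fun x => ?_).ag fun x => not_congr (Bc x)⟩
    by_cases m : x ∈ B
    · exact iff_of_false (by rwa [wi_pos m, mul_one]) (not_not.2 m)
    · exact iff_of_true (by rwa [wi_neg m, mul_zero, zero_add]) m
  · exact (nc (.inr fun x => (lB ∅ (fun x => iff_of_false
      (cs x (fun r => ¬ κ < r) e1 e2) id) x).mono fun n q => q.1)).elim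

theorem Fa_mul {a : G} {y : X → ℝ} (hy : Fa a y) (c : ℝ) : Fa a fun x => c * y x :=
  ⟨fun x => by rw [hy.inv], hy.sm.mono fun _ q => right_ne_zero_of_mul q⟩

/-- the chord between two walls -/
theorem e5' (hM : Mfd T) {t' : G} (c : Commute h t) (i : Ind h t) (c' : Commute h t')
    (i' : Ind h t') (d : Dif h t t') (hA : IsWall T h t A) (hB : IsWall T h t' B) :
    ∃ D, En T h D {t, t'} ∧ Ag t D A ∧ (Ag t' D B ∨ Ag t' D Bᶜ) := by
  obtain ⟨u, du, ua, us, ul⟩ := half c i hA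
  obtain ⟨v, dv, va, vs, vl⟩ := half c' i' hB
  obtain ⟨s, r, st, y, hy, ey⟩ := wang2 hM i.one (d1_c21 u) du (d1_c21 v) dv
  have sc : ∀ (z : ℝ) f, z * s * d1_c1 T u f + z * r * d1_c1 T v f =
      d1_c1 T (fun e => z * y e) f := fun z f => by
    have := ey f
    unfold d1_c1 at this ⊢
    linear_combination z * this
  have s0 : s ≠ 0 := st.elim id fun r0 e => by
    obtain ⟨D, -, -, q⟩ := join hM c' i' c i d.symm hB hA.ib va vs vl ua us ul (Fa_mul hy r)
      (mul_self_pos.2 r0) (t := r * s) fun f => by rw [add_comm, sc]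
    rw [e, mul_zero, lt_self_iff_false] at q
    exact q.elim And.left And.left
  obtain ⟨D, k, a, q⟩ := join hM c i c' i' d hA hB.ib ua us ul va vs vl (Fa_mul hy s)
    (mul_self_pos.2 s0) (sc s)
  exact ⟨D, k, a, q.imp And.right And.right⟩

theorem Ind.conj {s : G} (i : Ind h t) (c : Commute h s) : Ind h (s * t * s⁻¹) := fun m n e =>
  i m n (by
    rw [conj_zpow, ← mul_assoc, ← mul_assoc, (c.zpow_left m).eq, mul_inv_eq_one, mul_assoc,
      mul_eq_left] at e
    exact e)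

theorem comm_conj {s : G} (c : Commute h t) (cs : Commute h s) : Commute h (s * t * s⁻¹) :=
  (cs.mul_right c).mul_right cs.inv_right

theorem Dif.conj {s t' : G} (d : Dif h t t') (c : Commute h s) :
    Dif h (s * t * s⁻¹) (s * t' * s⁻¹) := fun m n j e => d m n j (by
  rw [conj_pow, conj_pow, ← mul_assoc, ← mul_assoc, (c.zpow_left m).eq, mul_left_inj, mul_assoc,
    mul_right_inj] at e
  exact e)

theorem Sm2_smul {s : G} (c : Commute h s) {S : Set X} (k : Sm2 h t S) :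
    Sm2 h (s * t * s⁻¹) (s • S) := by
  obtain ⟨K, hK, k⟩ := k
  refine ⟨(s • ·) '' K, hK.image _, ?_⟩
  rintro _ ⟨x, hx, rfl⟩
  obtain ⟨y, hy, m, n, rfl⟩ := k _ hx
  refine ⟨_, ⟨y, hy, rfl⟩, m, n, ?_⟩
  show s • _ = _ • s • y
  rw [← mul_smul, ← mul_smul, conj_zpow, ← mul_assoc, ← (c.zpow_left m).eq]
  congr 1
  group

theorem Sm_smul {s : G} (c : Commute h s) {S : Set X} (k : Sm h S) : Sm h (s • S) :=
  tr_eq s S ▸ sm_tr c k

theorem IsWall.smul {s : G} (w : IsWall T h t A) (c : Commute h s) :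
    IsWall T h (s * t * s⁻¹) (s • A) := by
  have bk : ∀ S : Set X0, Sm2 h (s * t * s⁻¹) (s • S) → Sm2 h t S := fun S k => by
    have := Sm2_smul c.inv_right k
    rwa [inv_smul_smul, inv_inv, ← mul_assoc, ← mul_assoc, inv_mul_cancel, one_mul,
      inv_mul_cancel_right] at this
  refine ⟨(w.en.smul c).1, fun x => ?_, ?_, fun k => w.big (bk _ k), fun k => w.big' (bk _ ?_)⟩
  · rw [mem_smul_set_iff_inv_smul_mem, mem_smul_set_iff_inv_smul_mem, mul_smul, mul_smul,
      inv_smul_smul, w.ib]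
  · rw [← tr_eq, cut_tr, tr_eq]
    exact Sm2_smul c w.fin
  · rwa [smul_set_compl]

/-- the oriented chord from a wall to a translate -/
theorem e5o (hM : Mfd T) (h0 : NoHom G) {s : G} (c : Commute h t) (i : Ind h t) (cs : Commute h s)
    (d : Dif h t (s * t * s⁻¹)) (hA : IsWall T h t A) :
    ∃ D, En T h D {t, s * t * s⁻¹} ∧ Ag t D A ∧ Ag (s * t * s⁻¹) D (s • A)ᶜ := by
  obtain ⟨u, du, ua, us, ul⟩ := half c i hA
  obtain ⟨w, hw, dw, mv, nt⟩ := we_two hM h0 i.one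
  obtain ⟨p, q, pq, y, hy, ey⟩ := wang2 hM i.one (d1_c21 u) du dw hw
  obtain ⟨z, hz, ez⟩ := mv s⁻¹ cs.inv_right
  have p0 : p ≠ 0 := fun e => by
    have q0 := pq.resolve_left (not_not.2 e)
    refine nt _ (Fa_mul hy q⁻¹) fun f => ?_
    have := ey f
    rw [e, zero_mul, zero_add] at this
    rw [← inv_mul_cancel_left₀ q0 (w f), this]
    unfold d1_c1
    ring
  obtain ⟨D, k, a, r⟩ := join hM c i (comm_conj c cs) (i.conj cs) d hA (hA.smul cs).ib
    ua us ul (v := fun e => u (s⁻¹ • e))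
    (fun e => by rw [← mul_smul, ← cs.inv_right.eq, mul_smul, ua]) (us.tr cs)
    (fun e => (ul (s⁻¹ • e)).mono fun n r => by
      rw [conj_pow, mul_smul, mul_smul, inv_smul_smul, r]
      unfold wz
      rw [T.e1, T.e1, wi_congr mem_smul_set_iff_inv_smul_mem,
        wi_congr (S := s • A) mem_smul_set_iff_inv_smul_mem])
    (Fa_mul (Fa_sub (Fa_sub hy (hy.shift cs.inv_right)) (Fa_mul hz q)) p)
    (mul_self_pos.2 p0) (t := -(p * p)) fun f => by
      have k1 := ey f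
      have k2 := ey (s⁻¹ • f)
      have k3 := ez f
      unfold d1_c1 at k1 k2 k3 ⊢
      simp only [T.e2] at k2
      linear_combination p * k1 - p * k2 + p * q * k3
  exact ⟨D, k, a, (r.resolve_left fun r => by linarith [r.1, mul_self_pos.2 p0]).2⟩

theorem IsWall.not_sm (w : IsWall T h t A) : ¬ Sm h A := fun k =>
  w.big (k.imp fun _ r => ⟨r.1, fun x hx => (r.2 x hx).imp fun _ q =>
    ⟨q.1, q.2.imp fun _ e => ⟨0, by rw [zpow_zero, mul_one, e]⟩⟩⟩)

/-- a wall whose ends differ from those of a chord lies on one side of it -/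
theorem side (hM : Mfd T) {w w' : G} (c : Commute h t) (i : Ind h t) (wJ : IsWall T h t J)
    (k : En T h D {w, w'}) (d : ∀ s ∈ ({w, w'} : Set G), Commute h s ∧ Dif h t s)
    (d' : ∀ s ∈ ({w, w'} : Set G), Commute h s ∧ Dif h t⁻¹ s)
    (l : ∀ s ∈ ({w, w'} : Set G), In s Jᶜ) : Sm h (J \ D) ∨ Sm h (J ∩ D) := by
  have f2 : ({w, w'} : Set G).Finite := toFinite _
  have o : ∀ C : Set X0, ∀ s ∈ ({w, w'} : Set G), In s (J ∩ C)ᶜ := fun C s a =>
    (l s a).mono fun _ q r => q r.1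
  have one : ∀ t : G, Commute h t → Ind h t → IsWall T h t J → In t D → In t⁻¹ Dᶜ → False :=
    fun t c i wJ a b => e4' hM c i wJ (L := insert t⁻¹ {w, w'}) (f2.insert _)
      ((wJ.en.inter k).mono (by
        rintro s ((rfl | rfl) | q)
        exacts [.inr rfl, .inl (.inl rfl), .inl (.inr q)]))
      (by
        rintro s (rfl | q)
        exacts [.inr (b.mono fun _ q r => q r.2), .inr (o D s q)])
      (a.mono fun _ q => and_iff_left q)
  rcases e3 hM c i f2 k d with a | a <;> rcases e3 hM c.inv_right i.inv f2 k d' with b | b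
  · refine .inl (e0' hM c i ((toFinite _).union f2) (wJ.en.diff k) ?_ (a.mono fun _ q r => r.2 q))
    rintro s ((rfl | rfl) | q)
    exacts [.inr (a.mono fun _ q r => r.2 q), .inr (b.mono fun _ q r => r.2 q), .inr (o Dᶜ s q)]
  · exact (one t c i wJ a b).elim
  · exact (one t⁻¹ c.inv_right i.inv wJ.inv b (by rwa [inv_inv])).elim
  · refine .inr (e0' hM c i ((toFinite _).union f2) (wJ.en.inter k) ?_
      (a.mono fun _ q r => q r.2))
    rintro s ((rfl | rfl) | q)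
    exacts [.inr (a.mono fun _ q r => q r.2), .inr (b.mono fun _ q r => q r.2), .inr (o D s q)]

/-- `t` runs along the wall `A` -/
structure Ray (T : Tri G X0 X1 X2 X3) (h t : G) (A : Set X0) : Prop where
  c : Commute h t
  i : Ind h t
  w : IsWall T h t A

theorem Ray.inv (r : Ray T h t A) : Ray T h t⁻¹ A := ⟨r.c.inv_right, r.i.inv, r.w.inv⟩

theorem Ray.smul {s : G} (r : Ray T h t A) (c : Commute h s) : Ray T h (s * t * s⁻¹) (s • A) :=
  ⟨comm_conj r.c c, r.i.conj c, r.w.smul c⟩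

/-- a direction different from the ends of a wall lies on one side -/
theorem Ray.side (hM : Mfd T) {w : G} (r : Ray T h t A) (c : Commute h w) (i : Ind h w)
    (d : Dif h w t) (d' : Dif h w t⁻¹) : In w A ∨ In w Aᶜ :=
  e3 hM c i (toFinite _) r.w.en (by
    rintro s (rfl | rfl)
    exacts [⟨r.c, d⟩, ⟨r.c.inv_right, d'⟩])

/-- in an invariant chain of crossing walls every end is covered -/
theorem cover (hM : Mfd T) (h0 : NoHom G) {s w : G} (cs : Commute h s) {Ψ : Set (Set X0)}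
    (ex : ∀ J ∈ Ψ, ∃ t, Ray T h t J)
    (df : ∀ J ∈ Ψ, ∀ J' ∈ Ψ, J ≠ J' → ∀ t t', Ray T h t J → Ray T h t' J' → Dif h t t')
    (bk : ∀ J ∈ Ψ, s⁻¹ • J ∈ Ψ) (hA : A ∈ Ψ) (hs : s • A ∈ Ψ) (ne : s • A ≠ A)
    (ch : Relation.ReflTransGen (fun J J' => J' ∈ Ψ ∧ ¬ Sm h (J ∩ J')) A (s • A))
    (r : Ray T h w A) : ∃ J ∈ Ψ, In w J := by
  by_contra no
  have o1 : ∀ J ∈ Ψ, J ≠ A → In w Jᶜ := fun J hJ n => by
    obtain ⟨t, q⟩ := ex J hJ
    exact (q.side hM r.c r.i (df _ hA _ hJ n.symm _ _ r q)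
      (df _ hA _ hJ n.symm _ _ r q.inv)).resolve_left fun k => no ⟨J, hJ, k⟩
  have o2 : ∀ J ∈ Ψ, J ≠ s • A → In (s * w * s⁻¹) Jᶜ := fun J hJ n => by
    have := (o1 _ (bk J hJ) fun e => n (inv_smul_eq_iff.1 e)).smul s
    rwa [smul_set_compl, smul_inv_smul] at this
  have r' := r.smul cs
  obtain ⟨D, k, a, a'⟩ := e5o hM h0 r.c r.i cs (df _ hA _ hs ne.symm _ _ r r') r.w
  obtain ⟨w', e⟩ : ∃ w', w' = s * w * s⁻¹ := ⟨_, rfl⟩
  rw [← e] at o2 r' k a'
  have f2 : ({w, w'} : Set G).Finite := toFinite _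
  have bA : Sm h (A \ D) := by
    rcases e3 hM r.inv.c r.inv.i f2 k (by
      rintro x (rfl | rfl)
      exacts [⟨r.c, r.i.dif.symm⟩, ⟨r'.c, df _ hA _ hs ne.symm _ _ r.inv r'⟩]) with b | b
    · have aw : In w (A \ D)ᶜ := In.mono a fun _ q p => p.2 (q.2 p.1)
      refine e0' hM r.c r.i ((toFinite _).union f2) (r.w.en.diff k) ?_ aw
      rintro x ((rfl | rfl) | rfl | rfl)
      exacts [.inr aw, .inr (b.mono fun _ q p => p.2 q), .inr aw,
        .inr ((o2 _ hA ne.symm).mono fun _ q p => q p.1)]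
    · refine (e4' hM r.c r.i r.w (L := {w⁻¹, w'}) (toFinite _) ((r.w.en.inter k).mono ?_) ?_
        (In.mono a fun _ q => and_iff_left_of_imp q.2)).elim
      · rintro x ((rfl | rfl) | rfl | rfl)
        exacts [.inr rfl, .inl (.inl rfl), .inr rfl, .inl (.inr rfl)]
      · rintro x (rfl | rfl)
        exacts [.inr (b.mono fun _ q p => q p.2), .inr ((o2 _ hA ne.symm).mono fun _ q p => q p.1)]
  have aA : Sm h (s • A ∩ D) := by
    have aw : In w' (s • A ∩ D)ᶜ := In.mono a' fun _ q p => q.1 p.2 p.1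
    have bw : In w (s • A ∩ D)ᶜ := (o1 _ hs ne).mono fun _ q p => q p.1
    rcases e3 hM r'.inv.c r'.inv.i f2 k (by
      rintro x (rfl | rfl)
      exacts [⟨r.c, df _ hs _ hA ne _ _ r'.inv r⟩, ⟨r'.c, r'.i.dif.symm⟩]) with b | b
    · refine (e4' hM r'.inv.c r'.inv.i r'.inv.w f2 ((r'.w.en.inter k).mono ?_) ?_
        (b.mono fun _ q => and_iff_left q)).elim
      · rintro x ((rfl | rfl) | q)
        exacts [.inl (.inr rfl), .inr rfl, .inl q]
      · rintro x (rfl | rfl)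
        exacts [.inr bw, .inr aw]
    · refine e0' hM r.c r.i ((toFinite _).union f2) (r'.w.en.inter k) ?_ bw
      rintro x ((rfl | rfl) | rfl | rfl)
      exacts [.inr aw, .inr (b.mono fun _ q p => q p.2), .inr bw, .inr aw]
  have all : ∀ J ∈ Ψ, Sm h (J \ D) ∨ Sm h (J ∩ D) := fun J hJ => by
    by_cases n1 : J = A
    · exact .inl (n1 ▸ bA)
    by_cases n2 : J = s • A
    · exact .inr (n2 ▸ aA)
    obtain ⟨t, q⟩ := ex J hJ
    have dd : ∀ t, Ray T h t J → ∀ x ∈ ({w, w'} : Set G), Commute h x ∧ Dif h t x := fun t q => by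
      rintro x (rfl | rfl)
      exacts [⟨r.c, df _ hJ _ hA n1 _ _ q r⟩, ⟨r'.c, df _ hJ _ hs n2 _ _ q r'⟩]
    refine side hM q.c q.i q.w k (dd _ q) (dd _ q.inv) ?_
    rintro x (rfl | rfl)
    exacts [o1 J hJ n1, o2 J hJ n2]
  have bef : ∀ J, Relation.ReflTransGen (fun J J' => J' ∈ Ψ ∧ ¬ Sm h (J ∩ J')) A J →
      Sm h (J \ D) := fun J q => by
    induction q with
    | refl => exact bA
    | tail _ q ih =>
      refine (all _ q.1).resolve_right fun p => q.2 ((ih.union p).mono fun x hx => ?_)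
      by_cases m : x ∈ D
      exacts [.inr ⟨hx.2, m⟩, .inl ⟨hx.1, m⟩]
  refine r'.w.not_sm (((bef _ ch).union aA).mono fun x hx => ?_)
  by_cases m : x ∈ D
  exacts [.inr ⟨hx, m⟩, .inl ⟨hx, m⟩]

/-- telescoping -/
theorem tel {C : Set X} (c : Commute h g) (k : Sm h (g • C \ C)) (a : In g Cᶜ) : Sm2 h g C := by
  obtain ⟨K, hK, k⟩ := k
  refine ⟨K, hK, fun x hx => by_contra fun no => ?_⟩
  have : ∀ n : ℕ, g ^ n • x ∈ C := fun n => by
    induction n with
    | zero => rwa [pow_zero, one_smul]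
    | succ n ih =>
      by_contra q
      obtain ⟨y, hy, m, e⟩ := k (g ^ (n + 1) • x) ⟨by
        rw [pow_succ', mul_smul]
        exact smul_mem_smul_set ih, q⟩
      exact no ⟨y, hy, m, -(n + 1 : ℕ), by
        rw [(c.zpow_zpow _ _).eq, mul_smul, ← e, zpow_neg, zpow_natCast, inv_smul_smul]⟩
  obtain ⟨n, q⟩ := (a x).exists
  exact q (this n)

end Pool.Agent.Work.MP_3d425c_gt.Jw
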